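import Pool.Agent.N520.SDefs
import Pool.Agent.N520.PiZero

/-!
# MP_ec5dc5_gt, Q1 (c): the group `Symp_ct(ℝ^{2n}, ω_st)` has countably many path components

`SympCt n` is the group of compactly supported symplectomorphisms of `(ℝ^{2n}, ω_st)` with its
usual topology (the direct limit, over the compact sets `K`, of the subgroups supported in `K`,
each with the `C^∞` topology), see `Pool/Agent/N520/SDefs.lean`.

The theorem answers question (c) positively for all `n`.

Proof.  If `φ, ψ` are supported in `K` and `ψ` is `C^1`-close to `φ`, put `h = ψ φ⁻¹`,
`m = (1 + h) / 2` and `f = (h - 1) ∘ m⁻¹`.  That `h` is symplectic means that the derivatives of the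
vector field `f` lie in the symplectic Lie algebra, a linear condition; so the maps
`h_t = (1 + t f / 2) ∘ (1 - t f / 2)⁻¹`, `0 ≤ t ≤ 1`, are symplectic and join `1` to `h`.  The
theorem follows by the separability of the space of continuous maps from a ball to the matrices.
-/

set_option autoImplicit false

open scoped ContDiff
open Pool.Agent.N520

namespace Pool.Agent.Results.MP_ec5dc5_gt.CountablePiZero

/-- For every `n` the group `G = Symp_ct(ℝ^{2n}, ω_st)` has countably many path components; more
precisely there is a countable subset `S` of `G` such that every element of `G` is joined to an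
element of `S` by a smooth path in `G` whose elements are supported in one compact set. -/
theorem result (n : ℕ) :
    Countable (ZerothHomotopy (SympCt n)) ∧
    ∃ S : Set (SympCt n), S.Countable ∧
      ∀ ψ : SympCt n, ∃ φ ∈ S, ∃ K : Set (V n), IsCompact K ∧ ∃ Γ : ℝ → SympCt n,
        ContDiff ℝ ∞ (fun z : ℝ × V n => (Γ z.1).1 z.2) ∧
        (∀ t, ∀ x ∉ K, (Γ t).1 x = x) ∧ Γ 0 = φ ∧ Γ 1 = ψ :=
  ⟨countable_zerothHomotopy n, exists_countable_dense_smooth n⟩

end Pool.Agent.Results.MP_ec5dc5_gt.CountablePiZero
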