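import Pool.Agent.N520.SDefs
import Pool.Agent.N520.LinGen

/-!
# MP_ec5dc5_gt, Q1 (b): an explicit class of elements isotopic to the identity

Let `Q` be an endomorphism of `ℝ^{2n}` with `ω(Qv, w) + ω(v, Qw) = ω(v, w)` (i.e. `Q - 1/2` lies in
the symplectic Lie algebra).  If `φ ∈ Symp_ct(ℝ^{2n}, ω_st)` is such that for every point `x` the
endomorphism `Q (Dφ(x) - 1)` has no real eigenvalue `≤ -1`, then `φ` is joined to the identity by a
smooth path in the group, with all supports in any compact set containing the support of `φ`.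

For `Q = 1/2` the condition says that no `Dφ(x)` has a negative real eigenvalue; if `Q` is the
projection `(x, y) ↦ (0, y)` it says that no `∂Y/∂y` has a real eigenvalue `≤ 0`, `φ = (X, Y)`.

Proof: `m = 1 + Q (φ - 1)` is a diffeomorphism, the derivatives of the vector field
`f = (φ - 1) ∘ m⁻¹` lie in the symplectic Lie algebra, and the path is
`φ_t = (1 + t (1 - Q) f) ∘ (1 - t Q f)⁻¹`.
-/

set_option autoImplicit false

open scoped ContDiff
open Pool.Agent.N520

namespace Pool.Agent.Results.MP_ec5dc5_gt.LinearGenerating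

/-- Let `Q` be linear with `ω(Qv, w) + ω(v, Qw) = ω(v, w)`.  An element `φ` of
`Symp_ct(ℝ^{2n}, ω_st)` supported in the compact set `K` such that no `Q (Dφ(x) - 1)` has a real
eigenvalue `≤ -1` is joined to the identity by a smooth path of elements supported in `K`. -/
theorem result (n : ℕ) (Q : V n →ₗ[ℝ] V n)
    (hQ : ∀ v w, omega (Q v) w + omega v (Q w) = omega v w)
    (φ : SympCt n) (K : Set (V n)) (hK : IsCompact K) (hφ : ∀ x ∉ K, φ.1 x = x)
    (hev : ∀ x, ∀ μ ≤ (-1 : ℝ), ∀ v, Q (fderiv ℝ φ.1 x v - v) = μ • v → v = 0) :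
    ∃ Γ : ℝ → SympCt n, ContDiff ℝ ∞ (fun z : ℝ × V n => (Γ z.1).1 z.2) ∧
      (∀ t, ∀ x ∉ K, (Γ t).1 x = x) ∧ Γ 0 = 1 ∧ Γ 1 = φ :=
  smooth_path_of_no_eigenvalue φ K hK hφ Q hQ hev

end Pool.Agent.Results.MP_ec5dc5_gt.LinearGenerating
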